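import Pool.Agent.Y134.TF.Rat
import Pool.Agent.Y134.Two.Fin

/-!
# Fixed vectors and extensions of the coefficients
-/

set_option autoImplicit false

namespace Pool.Agent.Run7.h735.TP

open Polynomial Module Pool.Agent.Y134.Two Pool.Agent.Y134.TF Pool.Agent.TH125.Gal Pool.Agent.Y130

section
variable {K₀ K A V : Type} [Field K₀] [CharZero K₀] [Field K] [Algebra K₀ K] [Ring A]
  [Algebra K A] [AddCommGroup V] [Module K₀ V] [FiniteDimensional K₀ V] {Γ : Type} [Group Γ]
  {χ : Γ →* Kˣ} {tr : A →ₗ[K] K} {r : ℕ} {T : Submodule K A} {act : Γ →* (A ≃ₐ[K] A)}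
  {b : V →ₗ[K₀] V →ₗ[K₀] K₀} {ρ : Representation K₀ Γ V} {j : V →+ A}

/-- If no vector of `V` is fixed by `N` then no vector of `T` is multiplied by `χ ^ r` by `N`. -/
theorem no_fixed (h : IsRational χ tr r T act b ρ j) {N : Subgroup Γ} (hN : fixed ρ N = ⊥)
    {x : A} (hx : x ∈ T) (hfix : ∀ g ∈ N, act g x = (χ g : K) ^ r • x) : x = 0 := by
  classical
  obtain ⟨B, hB⟩ := h.exists_basis
  set e := finBasis K₀ V with he
  obtain ⟨c, hc⟩ : ∃ c : Fin (finrank K₀ V) → K, c = fun i => B.repr ⟨x, hx⟩ i := ⟨_, rfl⟩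
  have hxc : x = ∑ i, c i • j (e i) := by
    have h1 := congrArg (Subtype.val) (B.sum_repr ⟨x, hx⟩)
    rw [Submodule.coe_sum] at h1
    rw [hc]
    refine h1.symm.trans (Finset.sum_congr rfl fun i _ => ?_)
    rw [Submodule.coe_smul, hB]
  -- the images of a vector
  have hj : ∀ v : V, j v = ∑ i, algebraMap K₀ K (e.repr v i) • j (e i) := by
    intro v
    conv_lhs => rw [← e.sum_repr v]
    rw [map_sum]
    exact Finset.sum_congr rfl fun i _ => h.smul _ _
  -- the coefficients are fixed
  have hcoef : ∀ g ∈ N, ∀ k, c k = ∑ i, algebraMap K₀ K (e.repr (ρ g (e i)) k) * c i := by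
    intro g hg
    have h1 := hfix g hg
    rw [hxc, map_sum, Finset.smul_sum] at h1
    have h2 : ∑ i, act g (c i • j (e i)) =
        (χ g : K) ^ r • ∑ k, (∑ i, algebraMap K₀ K (e.repr (ρ g (e i)) k) * c i) • j (e k) := by
      have h3 : ∀ i, act g (c i • j (e i)) = (χ g : K) ^ r •
          ∑ k, (algebraMap K₀ K (e.repr (ρ g (e i)) k) * c i) • j (e k) := by
        intro i
        rw [map_smul, h.equivariant, hj (ρ g (e i)), smul_comm, Finset.smul_sum]
        congr 1
        refine Finset.sum_congr rfl fun k _ => ?_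
        rw [smul_smul, mul_comm]
      rw [Finset.sum_congr rfl fun i _ => h3 i, ← Finset.smul_sum, Finset.sum_comm]
      congr 1
      refine Finset.sum_congr rfl fun k _ => ?_
      rw [Finset.sum_smul]
    rw [h2, ← Finset.smul_sum] at h1
    have h0 : ((χ g : K) ^ r) ≠ 0 := pow_ne_zero _ (Units.ne_zero _)
    have h4 := smul_right_injective A h0 h1
    have h5 : ∑ k, ((∑ i, algebraMap K₀ K (e.repr (ρ g (e i)) k) * c i) - c k) • B k = 0 := by
      apply Subtype.ext
      rw [Submodule.coe_sum, ZeroMemClass.coe_zero]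
      have h6 : ∀ k, (((((∑ i, algebraMap K₀ K (e.repr (ρ g (e i)) k) * c i) - c k) • B k : T)) : A)
          = (∑ i, algebraMap K₀ K (e.repr (ρ g (e i)) k) * c i) • j (e k) - c k • j (e k) := by
        intro k
        rw [Submodule.coe_smul, hB, sub_smul]
      rw [Finset.sum_congr rfl fun k _ => h6 k, Finset.sum_sub_distrib]
      exact sub_eq_zero.2 h4
    intro k
    have h7 := Fintype.linearIndependent_iff.1 B.linearIndependent _ h5 k
    exact (sub_eq_zero.1 h7).symm
  -- functionals
  have hall : ∀ i, c i = 0 := by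
    intro i
    rw [← Module.forall_dual_apply_eq_zero_iff K₀]
    intro l
    have hv : (∑ k, l (c k) • e k) ∈ fixed ρ N := by
      intro g hg
      have h1 : ∀ k, l (c k) = ∑ i, e.repr (ρ g (e i)) k * l (c i) := by
        intro k
        conv_lhs => rw [hcoef g hg k]
        rw [map_sum]
        refine Finset.sum_congr rfl fun i _ => ?_
        rw [← Algebra.smul_def, map_smul, smul_eq_mul]
      rw [map_sum]
      have h2 : ∀ i, ρ g (l (c i) • e i) = ∑ k, (e.repr (ρ g (e i)) k * l (c i)) • e k := by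
        intro i
        rw [map_smul]
        conv_lhs => rw [← e.sum_repr (ρ g (e i))]
        rw [Finset.smul_sum]
        refine Finset.sum_congr rfl fun k _ => ?_
        rw [smul_smul, mul_comm]
      rw [Finset.sum_congr rfl fun i _ => h2 i, Finset.sum_comm]
      refine Finset.sum_congr rfl fun k _ => ?_
      rw [← Finset.sum_smul, ← h1 k]
    rw [hN, Submodule.mem_bot] at hv
    exact Fintype.linearIndependent_iff.1 e.linearIndependent _ hv i
  rw [hxc]
  exact Finset.sum_eq_zero fun i _ => by rw [hall i, zero_smul]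

/-- Two places: no vector of `T` is multiplied by `χ ^ r` by a subgroup of finite index. -/
theorem no_tate (h : IsRational χ tr r T act b ρ j) (hF : FormOn χ tr r T act) {d : ℕ}
    (p₁ p₂ : Place K₀ d ρ)
    (hcyc : ∀ M : ℕ, Odd M → ¬ cyclotomic M (ZMod 2) ∣ p₁.P.map (Int.castRingHom (ZMod 2)))
    (h₂ : Odd (p₂.P.eval 1)) (hsq : ¬ SquareCondition p₁ p₂) {Δ : Subgroup Γ}
    (hΔ : Δ.FiniteIndex) {x : A} (hx : x ∈ T) (hfix : ∀ g ∈ Δ, act g x = (χ g : K) ^ r • x) :
    x = 0 := by
  have hN : Δ.normalCore.FiniteIndex := inferInstance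
  obtain ⟨m, hm, -, hmN⟩ := Δ.normalCore.exists_pow_mem_of_index_ne_zero hN.index_ne_zero p₁.φ
  have hbot : fixed ρ Δ.normalCore = ⊥ := by
    by_contra hne
    exact hsq (square_condition p₁ p₂ (fun x hx => h.form_zero hF hx) (h.form_symm hF)
      (h.form_inv hF) Δ.normalCore_normal hm hmN (fun M _ hM => hcyc M (by
        rw [← Nat.not_even_iff_odd, even_iff_two_dvd]
        exact hM)) h₂ hne)
  exact no_fixed h hbot hx fun g hg => hfix g (Δ.normalCore_le hg)

end

end Pool.Agent.Run7.h735.TP
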