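import Pool.Agent.Y134.TF.Geo

/-!
# The groups of the classes of cycles over a finite extension
-/

set_option autoImplicit false

universe u

namespace Pool.Agent.Run7.h735.TP

open Polynomial Module Pool.Agent.Y134.TF Pool.Agent.Y130 Pool.Agent.TH125.Gal Pool.Agent.TH118.SG
open Pool.Agent.H914 Pool.Agent.H914.VarClass Pool.Agent.H914.VarClass.Obj
  Pool.Agent.H914.WeilCohomology Pool.Agent.H281R3.HT Pool.Agent.W552

variable {k : Type u} [Field k] {𝒱 : VarClass k} {ops : CycleOps 𝒱}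
  {W : WeilCohomology.{u, 0} ops} {Γ : Type} [Group Γ] {X : GVar W Γ} {χ : Γ →* W.Kˣ}

/-- The classes of cycles of codimension `j` which are multiplied by `χ g ^ j` by all `g` in `Δ`. -/
def fixedClasses (χ : Γ →* W.Kˣ) (X : GVar W Γ) (Δ : Subgroup Γ) (j : ℕ) : Set (W.H X.X) :=
  {a | a ∈ algClasses W X.X j ∧ ∀ g ∈ Δ, X.act g a = (χ g : W.K) ^ j • a}

/-- The twisted action. -/
noncomputable def tw (χ : Γ →* W.Kˣ) (X : GVar W Γ) (j : ℕ) (g : Γ) : Module.End W.K (W.H X.X) :=
  (((χ g : W.K) ^ j)⁻¹) • (X.act g).toLinearMap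

lemma tw_apply (j : ℕ) (g : Γ) (x : W.H X.X) :
    tw χ X j g x = (((χ g : W.K) ^ j)⁻¹) • X.act g x := rfl

lemma tw_mul (j : ℕ) (g h : Γ) (x : W.H X.X) : tw χ X j (g * h) x = tw χ X j g (tw χ X j h x) := by
  rw [tw_apply, tw_apply, tw_apply, map_smul, smul_smul, map_mul, map_mul, AlgEquiv.mul_apply]
  congr 1
  push_cast
  rw [mul_pow, mul_inv]

lemma tw_eq (j : ℕ) (g : Γ) (x : W.H X.X) :
    tw χ X j g x = x ↔ X.act g x = (χ g : W.K) ^ j • x := by
  have h0 : ((χ g : W.K) ^ j) ≠ 0 := pow_ne_zero _ (Units.ne_zero _)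
  rw [tw_apply]
  constructor
  · intro h
    conv_rhs => rw [← h]
    rw [smul_smul, mul_inv_cancel₀ h0, one_smul]
  · intro h
    rw [h, smul_smul, inv_mul_cancel₀ h0, one_smul]

lemma sum_mem_alg {ι : Type} (s : Finset ι) {j : ℕ} (f : ι → W.H X.X)
    (hf : ∀ i ∈ s, f i ∈ algClasses W X.X j) : ∑ i ∈ s, f i ∈ algClasses W X.X j := by
  classical
  induction s using Finset.induction_on with
  | empty => exact ⟨0, H914.SmVar.IsCyc.zero _ _, by rw [map_zero, Finset.sum_empty]⟩
  | insert i s hi ih =>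
    rw [Finset.sum_insert hi]
    obtain ⟨z, hz, h1⟩ := hf i (Finset.mem_insert_self _ _)
    obtain ⟨w, hw, h2⟩ := ih fun i hi => hf i (Finset.mem_insert_of_mem hi)
    exact ⟨z + w, H914.SmVar.IsCyc.add hz hw, by rw [map_add, h1, h2]⟩

lemma smul_mem_alg {j : ℕ} (q : ℚ) {a : W.H X.X} (ha : a ∈ algClasses W X.X j) :
    (q : W.K) • a ∈ algClasses W X.X j := by
  obtain ⟨z, hz, h1⟩ := ha
  exact ⟨q • z, H914.SmVar.IsCyc.smul q hz, by rw [cl_smul, h1]⟩

lemma tw_mem_alg (hG : IsGaloisAct χ (W.gr X.X) X.X.dim (W.tr X.X) (algClasses W X.X) X.act)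
    {j : ℕ} (g : Γ) {a : W.H X.X} (ha : a ∈ algClasses W X.X j) :
    tw χ X j g a ∈ algClasses W X.X j := by
  obtain ⟨c, hc, h1⟩ := hG.cl_act g j a ha
  have h0 : ((χ g : W.K) ^ j) ≠ 0 := pow_ne_zero _ (Units.ne_zero _)
  rw [tw_apply, h1, smul_smul, inv_mul_cancel₀ h0, one_smul]
  exact hc

/-- **Descent.** A Tate class over the extension `Δ`, which is a combination of algebraic classes, is a
combination of algebraic classes which are fixed by `Δ`. -/
theorem descend (hG : IsGaloisAct χ (W.gr X.X) X.X.dim (W.tr X.X) (algClasses W X.X) X.act)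
    {Δ : Subgroup Γ} {j : ℕ} {x : W.H X.X}
    (hx : x ∈ Submodule.span W.K (algClasses W X.X j))
    (hfix : ∀ g ∈ Δ, X.act g x = (χ g : W.K) ^ j • x) :
    x ∈ Submodule.span W.K (fixedClasses χ X Δ j) := by
  classical
  -- a finite sum
  obtain ⟨s, c, hsum⟩ : ∃ (s : Finset (algClasses W X.X j)) (c : algClasses W X.X j → W.K),
      x = ∑ a ∈ s, c a • (a : W.H X.X) := by
    rw [← Subtype.range_coe (s := algClasses W X.X j)] at hx
    obtain ⟨c, hc⟩ := (Finsupp.mem_span_range_iff_exists_finsupp).1 hx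
    exact ⟨c.support, c, hc.symm⟩
  choose D hD1 hD2 using fun a : algClasses W X.X j => hG.cl_fix j a.1 a.2
  obtain ⟨N, hN, hNfi⟩ : ∃ N : Subgroup Γ, (∀ a ∈ s, N ≤ D a) ∧ N.FiniteIndex := by
    clear hsum
    induction s using Finset.induction_on with
    | empty => exact ⟨⊤, by simp, inferInstance⟩
    | insert a s ha ih =>
      obtain ⟨N, h1, h2⟩ := ih
      have := hD1 a
      refine ⟨N ⊓ D a, fun b hb => ?_, inferInstance⟩
      rcases Finset.mem_insert.1 hb with rfl | hb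
      · exact inf_le_right
      · exact inf_le_left.trans (h1 b hb)
  have hq : Finite (Δ ⧸ N.subgroupOf Δ) := by
    have : (N.subgroupOf Δ).FiniteIndex := inferInstance
    exact Subgroup.finite_quotient_of_finiteIndex
  have hqf : Fintype (Δ ⧸ N.subgroupOf Δ) := Fintype.ofFinite _
  -- the averages
  let T : W.H X.X →ₗ[W.K] W.H X.X := ∑ q : Δ ⧸ N.subgroupOf Δ, tw χ X j (q.out : Δ)
  have hT : ∀ a, T a = ∑ q : Δ ⧸ N.subgroupOf Δ, tw χ X j (q.out : Δ) a := by
    intro a
    exact LinearMap.sum_apply _ _ _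
  have hfixN : ∀ a ∈ s, ∀ g ∈ N, tw χ X j g a.1 = a.1 := fun a ha g hg =>
    (tw_eq j g a.1).2 (hD2 a g (hN a ha hg))
  have hTfix : ∀ a ∈ s, T a.1 ∈ fixedClasses χ X Δ j := by
    intro a ha
    refine ⟨?_, fun g hg => ?_⟩
    · rw [hT]
      exact sum_mem_alg _ _ fun q _ => tw_mem_alg hG _ a.2
    · rw [← tw_eq, hT, map_sum]
      have h1 : ∀ q : Δ ⧸ N.subgroupOf Δ, tw χ X j g (tw χ X j (q.out : Δ) a.1) =
          tw χ X j (((⟨g, hg⟩ : Δ) • q).out : Δ) a.1 := by
        intro q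
        rw [← tw_mul]
        have h2 : ((⟨g, hg⟩ : Δ) * q.out)⁻¹ * ((⟨g, hg⟩ : Δ) • q).out ∈ N.subgroupOf Δ := by
          rw [← QuotientGroup.eq]
          have e1 : (((⟨g, hg⟩ : Δ) • q).out : Δ ⧸ N.subgroupOf Δ) = (⟨g, hg⟩ : Δ) • q :=
            Quotient.out_eq' _
          have e2 : (((⟨g, hg⟩ : Δ) * q.out : Δ) : Δ ⧸ N.subgroupOf Δ) =
              (⟨g, hg⟩ : Δ) • (q.out : Δ ⧸ N.subgroupOf Δ) := rfl
          rw [e1, e2]
          congr 1
          exact Quotient.out_eq' _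
        rw [Subgroup.mem_subgroupOf] at h2
        have h3 := hfixN a ha _ h2
        have h4 : (((⟨g, hg⟩ : Δ) • q).out : Γ) = (g * (q.out : Δ)) *
            ((((⟨g, hg⟩ : Δ) * q.out)⁻¹ * ((⟨g, hg⟩ : Δ) • q).out : Δ) : Γ) := by
          push_cast
          group
        rw [h4, tw_mul j (g * (q.out : Δ)), h3]
      rw [Finset.sum_congr rfl fun q _ => h1 q]
      exact Equiv.sum_comp (MulAction.toPerm (⟨g, hg⟩ : Δ)) (fun q : Δ ⧸ N.subgroupOf Δ =>
        tw χ X j (q.out : Δ) a.1)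
  have hTx : T x = (Fintype.card (Δ ⧸ N.subgroupOf Δ) : W.K) • x := by
    rw [hT, Finset.sum_congr rfl fun q _ => (tw_eq j _ x).2 (hfix _ (q.out : Δ).2),
      Finset.sum_const, Finset.card_univ, ← Nat.cast_smul_eq_nsmul W.K]
  have hc0 : (Fintype.card (Δ ⧸ N.subgroupOf Δ) : W.K) ≠ 0 := by
    have : 0 < Fintype.card (Δ ⧸ N.subgroupOf Δ) := Fintype.card_pos
    exact_mod_cast this.ne'
  have h5 : T x ∈ Submodule.span W.K (fixedClasses χ X Δ j) := by
    rw [hsum, map_sum]
    refine Submodule.sum_mem _ fun a ha => ?_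
    rw [map_smul]
    exact Submodule.smul_mem _ _ (Submodule.subset_span (hTfix a ha))
  rw [hTx] at h5
  have h6 := (Submodule.span W.K (fixedClasses χ X Δ j)).smul_mem
    (Fintype.card (Δ ⧸ N.subgroupOf Δ) : W.K)⁻¹ h5
  rwa [smul_smul, inv_mul_cancel₀ hc0, one_smul] at h6

/-- **Injectivity.** Classes of cycles which are linearly independent over `ℚ` are linearly
independent over the coefficients, if homological and numerical equivalence coincide. -/
theorem indep (hnz : ∀ z ∈ algSpan W X.X, (∀ c ∈ algSpan W X.X, W.tr X.X (z * c) = 0) → z = 0)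
    {j m : ℕ} (a : Fin m → W.H X.X) (ha : ∀ i, a i ∈ algClasses W X.X j)
    (hq : ∀ q : Fin m → ℚ, ∑ i, (q i : W.K) • a i = 0 → q = 0) : LinearIndependent W.K a := by
  classical
  rw [Fintype.linearIndependent_iff]
  intro c hc i
  rw [← Module.forall_dual_apply_eq_zero_iff ℚ]
  intro l
  have h1 : ∑ i, ((l (c i) : ℚ) : W.K) • a i = 0 := by
    apply hnz
    · exact Submodule.sum_mem _ fun i _ => Submodule.smul_mem _ _ (alg_mem (ha i))
    intro b hb
    induction hb using Submodule.span_induction with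
    | mem b hb =>
      obtain ⟨p, hp⟩ := Set.mem_iUnion.1 hb
      -- the intersection numbers are rational
      have hr : ∀ i, ∃ r : ℚ, W.tr X.X (a i * b) = (r : W.K) := by
        intro i
        obtain ⟨z, hz, h2⟩ := ha i
        obtain ⟨w, hw, h3⟩ := hp
        rw [← h2, ← h3, ← W.cl_mul]
        by_cases hjp : j + p = X.X.dim
        · refine ⟨_, W.tr_cl ?_⟩
          have := ops.mul_mem hz hw
          rwa [hjp] at this
        · refine ⟨0, ?_⟩
          rw [Rat.cast_zero]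
          refine W.tr_eq_zero (W.cl_mem (ops.mul_mem hz hw)) ?_
          omega
      choose r hr using hr
      have h2 : W.tr X.X ((∑ i, c i • a i) * b) = 0 := by rw [hc, zero_mul, map_zero]
      rw [Finset.sum_mul, map_sum] at h2
      have h3 : ∑ i, r i • c i = (0 : W.K) := by
        rw [← h2]
        refine Finset.sum_congr rfl fun i _ => ?_
        rw [smul_mul_assoc, map_smul, hr i, Rat.smul_def, smul_eq_mul, mul_comm]
      have h4 := congrArg l h3
      rw [map_sum, map_zero] at h4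
      rw [Finset.sum_mul, map_sum]
      have h5 : ∑ i, ((r i * l (c i) : ℚ) : W.K) = 0 := by
        have h6 : ∑ i, r i * l (c i) = 0 := by
          rw [← h4]
          exact Finset.sum_congr rfl fun i _ => by rw [map_smul, smul_eq_mul]
        rw [← Rat.cast_sum, h6, Rat.cast_zero]
      rw [← h5]
      refine Finset.sum_congr rfl fun i _ => ?_
      rw [smul_mul_assoc, map_smul, hr i, smul_eq_mul, Rat.cast_mul, mul_comm]
    | zero => rw [mul_zero, map_zero]
    | add x y _ _ hx hy => rw [mul_add, map_add, hx, hy, add_zero]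
    | smul c x _ hx => rw [mul_smul_comm, map_smul, hx, smul_zero]
  have h2 := hq (fun i => l (c i)) h1
  exact congrFun h2 i

end Pool.Agent.Run7.h735.TP
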