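import Pool.Agent.Y134.TF.Geo

/-!
# Varieties without Tate classes in the primitive cohomology
-/

set_option autoImplicit false

universe u

namespace Pool.Agent.Run7.h735.TP

open Polynomial Module Pool.Agent.Y134.TF Pool.Agent.Y130 Pool.Agent.TH125.Gal Pool.Agent.TH118.SG
open Pool.Agent.H914 Pool.Agent.H914.VarClass Pool.Agent.H914.VarClass.Obj
  Pool.Agent.H914.WeilCohomology Pool.Agent.H281R3.HT Pool.Agent.W552

variable {k : Type u} [Field k] {𝒱 : VarClass k} {ops : CycleOps 𝒱}
  {W : WeilCohomology.{u, 0} ops} {Γ : Type} [Group Γ]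
  {X : GVar W Γ} {A P : Submodule W.K (W.H X.X)}

/-- The consequences of the absence of Tate classes in `P`. -/
theorem middle_fix {χ : Γ →* W.Kˣ}
    (hG : IsGaloisAct χ (W.gr X.X) X.X.dim (W.tr X.X) (algClasses W X.X) X.act) {d : ℕ}
    (hd : X.X.dim = 2 * d) (hA : A ≤ algSpan W X.X) (hP : P ≤ W.gr X.X X.X.dim)
    (hAP : A ⊔ P = ⊤) (ho : ∀ a ∈ A, ∀ x ∈ P, W.tr X.X (a * x) = 0)
    (hno : ∀ Δ : Subgroup Γ, Δ.FiniteIndex → ∀ x ∈ P,
      (∀ g ∈ Δ, X.act g x = (χ g : W.K) ^ d • x) → x = 0) :
    transcendental W X.X = P ∧ HomEqNum W X.X ∧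
      (∀ z ∈ algSpan W X.X, (∀ c ∈ algSpan W X.X, W.tr X.X (z * c) = 0) → z = 0) ∧
      algSpan W X.X = A ∧ TateConjecture χ X := by
  -- there are no algebraic classes in `P`
  have hbot : algSpan W X.X ⊓ P = ⊥ := by
    rw [eq_bot_iff]
    rintro x ⟨hx, hx'⟩
    rw [Submodule.mem_bot]
    have h3 : x ∈ W.gr X.X (2 * d) := by
      rw [← hd]
      exact hP hx'
    obtain ⟨Δ, hΔ, h4⟩ := exists_fix hG (algSpan_gr hx h3)
    exact hno Δ hΔ x hx' h4
  have hAeq : ∀ x ∈ algSpan W X.X, x ∈ A := by
    intro x hx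
    have h1 : x ∈ A ⊔ P := by rw [hAP]; exact Submodule.mem_top
    obtain ⟨a, ha, p, hp, rfl⟩ := Submodule.mem_sup.1 h1
    have h2 : p ∈ algSpan W X.X ⊓ P := by
      refine ⟨?_, hp⟩
      have h3 := (algSpan W X.X).sub_mem hx (hA ha)
      rwa [add_sub_cancel_left] at h3
    rw [hbot, Submodule.mem_bot] at h2
    rw [h2, add_zero]
    exact ha
  have hPT : P ≤ transcendental W X.X := by
    intro x hx
    rw [mem_trans']
    intro c hc
    rw [bil_apply, ← alg_comm hc]
    exact ho c (hAeq c hc) x hx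
  have hnz : ∀ z ∈ algSpan W X.X, (∀ c ∈ algSpan W X.X, W.tr X.X (z * c) = 0) → z = 0 := by
    intro z hz key
    apply W.nondeg
    intro y
    have hy : y ∈ A ⊔ P := by rw [hAP]; exact Submodule.mem_top
    obtain ⟨a, ha, p, hp, rfl⟩ := Submodule.mem_sup.1 hy
    rw [mul_add, map_add, ho _ (hAeq _ hz) p hp, add_zero]
    exact key a (hA ha)
  refine ⟨le_antisymm ?_ hPT, ?_, hnz, le_antisymm hAeq hA, ?_⟩
  · intro t ht
    have h1 : t ∈ A ⊔ P := by rw [hAP]; exact Submodule.mem_top
    obtain ⟨a, ha, p, hp, rfl⟩ := Submodule.mem_sup.1 h1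
    have h2 : a ∈ transcendental W X.X := by
      have h3 := (transcendental W X.X).sub_mem ht (hPT hp)
      rwa [add_sub_cancel_right] at h3
    have h3 : a = 0 := by
      apply W.nondeg
      intro y
      have hy : y ∈ A ⊔ P := by rw [hAP]; exact Submodule.mem_top
      obtain ⟨a', ha', p', hp', rfl⟩ := Submodule.mem_sup.1 hy
      rw [mul_add, map_add, ho a ha p' hp', add_zero]
      exact trans_alg h2 (hA ha')
    rw [h3, zero_add]
    exact hp
  · intro i hi z hz hzw
    have key : ∀ c ∈ algSpan W X.X, W.tr X.X (W.cl X.X z * c) = 0 := by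
      intro c hc
      induction hc using Submodule.span_induction with
      | mem c hc =>
        obtain ⟨l, hl⟩ := Set.mem_iUnion.1 hc
        obtain ⟨w, hw, rfl⟩ := hl
        by_cases hil : i + l = X.X.dim
        · have h2 : l = X.X.dim - i := by omega
          have h3 := hzw w (h2 ▸ hw)
          have h4 : X.X.IsCyc X.X.dim (ops.mul z w) := by
            have := ops.mul_mem hz hw
            rwa [hil] at this
          rw [← W.cl_mul, W.tr_cl h4, h3]
          simp
        · refine W.tr_eq_zero (W.mul_mem (W.cl_mem hz) (W.cl_mem hw)) ?_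
          omega
      | zero => rw [mul_zero, map_zero]
      | add x y _ _ hx hy => rw [mul_add, map_add, hx, hy, add_zero]
      | smul c x _ hx => rw [mul_smul_comm, map_smul, hx, smul_zero]
    exact hnz _ (alg_mem ⟨z, hz, rfl⟩) key
  · rintro j c hc ⟨Δ, hΔ, hfix⟩
    have h1 : c ∈ A ⊔ P := by rw [hAP]; exact Submodule.mem_top
    obtain ⟨a, ha, p, hp, rfl⟩ := Submodule.mem_sup.1 h1
    have hp0 : p = 0 := by
      by_cases hj : j = d
      · subst hj
        have h3 : p ∈ W.gr X.X (2 * j) := by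
          rw [← hd]
          exact hP hp
        have h4 : a ∈ W.gr X.X (2 * j) := by
          have := (W.gr X.X (2 * j)).sub_mem hc h3
          rwa [add_sub_cancel_right] at this
        obtain ⟨Δ', hΔ', h5⟩ := exists_fix hG (algSpan_gr (hA ha) h4)
        refine hno (Δ ⊓ Δ') inferInstance p hp fun g hg => ?_
        have h6 := hfix g hg.1
        rw [map_add, smul_add, h5 g hg.2] at h6
        exact add_left_cancel h6
      · -- the class is orthogonal to everything
        apply W.nondeg
        intro y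
        have hy : y ∈ A ⊔ P := by rw [hAP]; exact Submodule.mem_top
        obtain ⟨a', ha', p', hp', rfl⟩ := Submodule.mem_sup.1 hy
        rw [mul_add, map_add]
        have h2 : W.tr X.X (p * a') = 0 := by
          rw [← alg_comm (hA ha')]
          exact ho a' ha' p hp
        have h3 : W.tr X.X ((a + p) * p') = 0 := by
          refine W.tr_eq_zero (W.mul_mem hc (hP hp')) ?_
          omega
        rw [add_mul, map_add, ho a ha p' hp', zero_add] at h3
        rw [h2, h3, add_zero]
    subst hp0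
    rw [add_zero] at hc ⊢
    exact algSpan_gr (hA ha) hc

end Pool.Agent.Run7.h735.TP
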