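import Pool.Agent.Run7.h735.TP.Defs
import Pool.Agent.Run7.h735.TP.Fix
import Pool.Agent.Run7.h735.TP.Geo
import Pool.Agent.Run7.h735.TP.Full

/-!
# Double coverings and two places: the Tate conjecture
-/

set_option autoImplicit false

universe u

namespace Pool.Agent.Run7.h735.TP

open Polynomial Module Pool.Agent.Y134.Two Pool.Agent.Y134.TF Pool.Agent.Y130
  Pool.Agent.TH125.Gal Pool.Agent.TH118.SG
open Pool.Agent.H914 Pool.Agent.H914.VarClass Pool.Agent.H914.VarClass.Obj
  Pool.Agent.H914.WeilCohomology Pool.Agent.H281R3.HT Pool.Agent.W552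

variable {k : Type u} [Field k] {𝒱 : VarClass k} {ops : CycleOps 𝒱}
  {W : WeilCohomology.{u, 0} ops} {Γ : Type} [Group Γ] {χ : Γ →* W.Kˣ} {S : PVar W Γ} {d : ℕ}

theorem Cover.formOn (h : Cover χ S d) : FormOn χ (W.tr S.X) d S.P S.act := by
  obtain ⟨A, hA, hAP, ho⟩ := h.sum
  have hd : S.X.dim = 2 * d := h.dim
  have he : Even S.X.dim := by rw [hd]; exact even_two_mul d
  have h1 := Pool.Agent.Y134.TF.formOn (P := S.P) h.galois he hA h.middle hAP ho
  have h2 : S.X.dim / 2 = d := by rw [hd]; omega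
  rwa [h2] at h1

/-- **The conclusion from the absence of Tate classes in `P`.** -/
theorem Cover.tate (h : Cover χ S d)
    (hno : ∀ Δ : Subgroup Γ, Δ.FiniteIndex → ∀ x ∈ S.P,
      (∀ g ∈ Δ, S.act g x = (χ g : W.K) ^ d • x) → x = 0) : TateHolds χ S d := by
  obtain ⟨A, hA, hAP, ho⟩ := h.sum
  obtain ⟨h1, h2, h3, -, h4⟩ := middle_fix (X := S.toGVar) h.galois h.dim hA h.middle hAP ho hno
  have hspan : ∀ z : W.H S.X, (∀ j, ∀ c ∈ algClasses W S.X j, W.tr S.X (z * c) = 0) →
      ∀ c ∈ algSpan W S.X, W.tr S.X (z * c) = 0 := by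
    intro z hz c hc
    induction hc using Submodule.span_induction with
    | mem c hc =>
      obtain ⟨l, hl⟩ := Set.mem_iUnion.1 hc
      exact hz l c hl
    | zero => rw [mul_zero, map_zero]
    | add x y _ _ hx hy => rw [mul_add, map_add, hx, hy, add_zero]
    | smul c x _ hx => rw [mul_smul_comm, map_smul, hx, smul_zero]
  refine
    { surjective := fun Δ hΔ j c hc hfix => ?_
      injective := fun j m a ha hq => indep (X := S.toGVar) h3 a ha hq
      homEqNum := fun i c hc h0 => ?_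
      transcendental := fun x => ?_
      noTate := hno }
  · exact descend (X := S.toGVar) h.galois (h4 j c hc ⟨Δ, hΔ, hfix⟩) hfix
  · exact h3 c (Submodule.subset_span (Set.mem_iUnion.2 ⟨i, hc⟩)) (hspan c h0)
  · rw [← h1, mem_trans']
    constructor
    · intro h1 l c hc
      exact h1 c (Submodule.subset_span (Set.mem_iUnion.2 ⟨l, hc⟩))
    · intro h1 c hc
      exact hspan x h1 c hc

/-- **Two places.** -/
theorem Cover.square (h : Cover χ S d) (hs : SquareStr χ (W.tr S.X) S.act S.P d) :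
    TateHolds χ S d := by
  obtain ⟨K₀, _, _, _, F, j, p₁, p₂, hj, hg, hsq⟩ := hs
  exact h.tate fun Δ hΔ x hx hfix => no_tate hj h.formOn p₁ p₂ hg.cyclotomic hg.odd
    hsq hΔ hx hfix

/-- **Two places, for `ℓ = 2`.** -/
theorem Cover.parity (h : Cover χ S d) (hs : ParityStr χ (W.tr S.X) S.act S.P d) :
    TateHolds χ S d := by
  obtain ⟨_, F, j, p₁, p₂, hj, hg, hodd⟩ := hs
  exact h.square ⟨ℚ_[2], inferInstance, inferInstance, inferInstance, F, j, p₁, p₂, hj, hg,
    not_square_condition p₁ p₂ hodd⟩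

end Pool.Agent.Run7.h735.TP
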