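import Pool.Agent.Y134.TF.Defs
import Pool.Agent.Y134.Two.Defs

/-!
# Double coverings: definitions
-/

set_option autoImplicit false

universe u

namespace Pool.Agent.Run7.h735.TP

open Polynomial Pool.Agent.Y134.Two Pool.Agent.Y134.TF Pool.Agent.Y130 Pool.Agent.TH125.Gal

/-- The sums of the coefficients of `P₁` and of `P₂` in the degrees `g - 1, g - 3, …` have different parity, where `g`
is half of `n` (`n = 2 g + 1` in the applications). -/
def Parity (n : ℕ) (P₁ P₂ : ℤ[X]) : Prop := Odd (arf (n / 2) P₁ + arf (n / 2) P₂)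

section
variable {K A : Type} [Field K] [Ring A] [Algebra K A] {Γ : Type} [Group Γ]

/-- The group `Γ` acts like a Galois group on the cohomology algebra `A` of a variety of dimension `n = 2 d` (with the
degrees `gr`, the orientation `tr` and the sets `C j` of the classes of cycles of codimension `j`), and `A` is the
orthogonal sum of a space spanned by classes of cycles and of a subspace `P` of the cohomology in the degree `2 d`. -/
structure CoverAct (χ : Γ →* Kˣ) (gr : ℕ → Submodule K A) (n : ℕ) (tr : A →ₗ[K] K)
    (C : ℕ → Set A) (act : Γ →* (A ≃ₐ[K] A)) (P : Submodule K A) (d : ℕ) : Prop where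
  galois : IsGaloisAct χ gr n tr C act
  dim : n = 2 * d
  middle : P ≤ gr n
  sum : OrthSum tr (Submodule.span K (⋃ j, C j)) P

end

open Pool.Agent.H914 Pool.Agent.H914.VarClass Pool.Agent.H914.VarClass.Obj
  Pool.Agent.H914.WeilCohomology Pool.Agent.H281R3.HT

variable {k : Type u} [Field k] {𝒱 : VarClass k} {ops : CycleOps 𝒱}
  {W : WeilCohomology.{u, 0} ops} {Γ : Type} [Group Γ]

/-- The variety `S` has the property `CoverAct`. -/
def Cover (χ : Γ →* W.Kˣ) (S : PVar W Γ) (d : ℕ) : Prop :=
  CoverAct χ (W.gr S.X) S.X.dim (W.tr S.X) (algClasses W S.X) S.act S.P d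

end Pool.Agent.Run7.h735.TP
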