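import Pool.Agent.Run7.h735.TP.Base

/-!
# Double coverings and two places: definitions
-/

set_option autoImplicit false

universe u

namespace Pool.Agent.Run7.h735.TP

open Polynomial Pool.Agent.Y134.Two Pool.Agent.Y134.TF Pool.Agent.Y130 Pool.Agent.TH125.Gal

/-- The conditions on the numerators `P₁` and `P₂` of the zeta functions of the branch loci at two places: modulo `2`,
`P₁` is not divisible by the cyclotomic polynomials of odd order, and `P₂(1) ≠ 0`. -/
structure GoodPair (P₁ P₂ : ℤ[X]) : Prop where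
  cyclotomic : ∀ M : ℕ, Odd M → ¬ cyclotomic M (ZMod 2) ∣ P₁.map (Int.castRingHom (ZMod 2))
  odd : Odd (P₂.eval 1)

/-- The conclusion at two places: the characteristic polynomials of `q ^ d φ` on `V` at the two places are
`(X - ε q ^ d) R` with `ε = 1` or `ε = -1` and `R` with integral coefficients, the product `δ` of the values of the two
polynomials `R` at `q ^ d` and at `- q ^ d` is a square in `K`, and it is congruent modulo `8` to `1` or to `5` according to
the parity of the sum of the numbers `arf`. -/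
def SquareCase {K : Type} [Field K] {V : Type} [AddCommGroup V] [Module K V]
    [FiniteDimensional K V] {G : Type} [Group G] {d : ℕ} {ρ : Representation K G V}
    (p₁ p₂ : Place K d ρ) : Prop :=
  ∃ (R₁ R₂ : ℤ[X]) (ε₁ ε₂ δ : ℤ), (ε₁ = 1 ∨ ε₁ = -1) ∧ (ε₂ = 1 ∨ ε₂ = -1) ∧
    ((X - C (ε₁ * (@Fintype.card p₁.κ p₁.fintype : ℤ) ^ d)) * R₁).map (Int.castRingHom K)
      = (((@Fintype.card p₁.κ p₁.fintype : K) ^ d) • ρ p₁.φ).charpoly ∧
    ((X - C (ε₂ * (@Fintype.card p₂.κ p₂.fintype : ℤ) ^ d)) * R₂).map (Int.castRingHom K)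
      = (((@Fintype.card p₂.κ p₂.fintype : K) ^ d) • ρ p₂.φ).charpoly ∧
    δ = (R₁.eval ((@Fintype.card p₁.κ p₁.fintype : ℤ) ^ d) *
        R₁.eval (-((@Fintype.card p₁.κ p₁.fintype : ℤ) ^ d)))
      * (R₂.eval ((@Fintype.card p₂.κ p₂.fintype : ℤ) ^ d) *
        R₂.eval (-((@Fintype.card p₂.κ p₂.fintype : ℤ) ^ d))) ∧
    IsSquare (δ : K) ∧
    δ ≡ 1 + 4 * (arf (Module.finrank K V / 2) p₁.P + arf (Module.finrank K V / 2) p₂.P) [ZMOD 8]

section
variable {K A : Type} [Field K] [Ring A] [Algebra K A] {Γ : Type} [Group Γ]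

/-- For a field `K₀` of characteristic `0`, the space `P`, with its form and with the action of `Γ` twisted by
`χ ^ (- d)`, comes from a representation `F` of `Γ` over `K₀`, the anti-invariant part of the cohomology of a double
covering of the projective space of dimension `2 d`, with two places with the properties `GoodPair` and not with the
property `SquareCase`. -/
def SquareStr (χ : Γ →* Kˣ) (tr : A →ₗ[K] K) (act : Γ →* (A ≃ₐ[K] A)) (P : Submodule K A)
    (d : ℕ) : Prop :=
  ∃ (K₀ : Type) (_ : Field K₀) (_ : CharZero K₀) (_ : Algebra K₀ K) (F : FormRep K₀ Γ)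
    (j : F.V →+ A) (p₁ p₂ : Place K₀ d F.rep), IsRational χ tr d P act F.form F.rep j ∧
    GoodPair p₁.P p₂.P ∧ ¬ SquareCase p₁ p₂

/-- The same for `K₀ = ℚ_2` with the condition `Parity`. -/
def ParityStr (χ : Γ →* Kˣ) (tr : A →ₗ[K] K) (act : Γ →* (A ≃ₐ[K] A)) (P : Submodule K A)
    (d : ℕ) : Prop :=
  ∃ (_ : Algebra ℚ_[2] K) (F : FormRep ℚ_[2] Γ) (j : F.V →+ A) (p₁ p₂ : Place ℚ_[2] d F.rep),
    IsRational χ tr d P act F.form F.rep j ∧ GoodPair p₁.P p₂.P ∧
    Parity (Module.finrank ℚ_[2] F.V) p₁.P p₂.P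

/-- The classes of cycles of codimension `j` on which all `g` in `Δ` act by `χ g ^ j`: the classes of the cycles over
the finite extension given by the subgroup `Δ`. -/
def cycleClasses (χ : Γ →* Kˣ) (C : ℕ → Set A) (act : Γ →* (A ≃ₐ[K] A)) (Δ : Subgroup Γ)
    (j : ℕ) : Set A :=
  {a | a ∈ C j ∧ ∀ g ∈ Δ, act g a = (χ g : K) ^ j • a}

/-- The Tate conjecture in all codimensions `j` over all finite extensions, and no Tate classes in `P`.  For every
subgroup `Δ` of finite index the natural map from the tensor product of the space `cycleClasses χ C act Δ j` with the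
field of coefficients to the space of the classes of degree `2 j` on which all `g` in `Δ` act by `χ g ^ j` is surjective
and injective (classes of cycles which are linearly independent over `ℚ` are linearly independent over `K`); a class
of a cycle which is orthogonal to all classes of cycles is zero; and `P`, the orthogonal complement of all classes of
cycles, contains no Tate class but zero over any finite extension. -/
structure TateFull (χ : Γ →* Kˣ) (gr : ℕ → Submodule K A) (tr : A →ₗ[K] K)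
    (C : ℕ → Set A) (act : Γ →* (A ≃ₐ[K] A)) (P : Submodule K A) (d : ℕ) : Prop where
  surjective : ∀ Δ : Subgroup Γ, Δ.FiniteIndex → ∀ j, ∀ c ∈ gr (2 * j),
    (∀ g ∈ Δ, act g c = (χ g : K) ^ j • c) → c ∈ Submodule.span K (cycleClasses χ C act Δ j)
  injective : ∀ (j m : ℕ) (a : Fin m → A), (∀ i, a i ∈ C j) →
    (∀ q : Fin m → ℚ, ∑ i, (q i : K) • a i = 0 → q = 0) → LinearIndependent K a
  homEqNum : ∀ i, ∀ c ∈ C i, (∀ j, ∀ c' ∈ C j, tr (c * c') = 0) → c = 0
  transcendental : ∀ x, x ∈ P ↔ ∀ j, ∀ c ∈ C j, tr (x * c) = 0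
  noTate : ∀ Δ : Subgroup Γ, Δ.FiniteIndex → ∀ x ∈ P,
    (∀ g ∈ Δ, act g x = (χ g : K) ^ d • x) → x = 0

end

open Pool.Agent.H914 Pool.Agent.H914.VarClass Pool.Agent.H914.VarClass.Obj
  Pool.Agent.H914.WeilCohomology Pool.Agent.H281R3.HT

variable {k : Type u} [Field k] {𝒱 : VarClass k} {ops : CycleOps 𝒱}
  {W : WeilCohomology.{u, 0} ops} {Γ : Type} [Group Γ]

/-- The variety `S` has the property `SquareStr` or `ParityStr`. -/
def TwoPlaces (χ : Γ →* W.Kˣ) (S : PVar W Γ) (d : ℕ) : Prop :=
  SquareStr χ (W.tr S.X) S.act S.P d ∨ ParityStr χ (W.tr S.X) S.act S.P d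

/-- The variety `S` has the property `TateFull`. -/
def TateHolds (χ : Γ →* W.Kˣ) (S : PVar W Γ) (d : ℕ) : Prop :=
  TateFull χ (W.gr S.X) (W.tr S.X) (algClasses W S.X) S.act S.P d

end Pool.Agent.Run7.h735.TP
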