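import Pool.Agent.Run7.h735.TP.Base

/-!
# Double coverings and two places: definitions for the powers
-/

set_option autoImplicit false

universe u

namespace Pool.Agent.Run7.h735.TP

open Polynomial Pool.Agent.Y134.Two Pool.Agent.Y134.TF Pool.Agent.Y130 Pool.Agent.TH125.Gal

/-- For two places `p₁` and `p₂` for the representation `ρ` on `V`: `P₁(1)` and `P₂(1)` are odd, and the condition
`Parity` holds; the characteristic polynomial of the Frobenius element at the first place is `(X - ε) R` with `ε = 1` or
`ε = -1` and an irreducible polynomial `R` of degree at least `2`; no quotient of two of its roots is a root of unity; and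
`a` is an isolated root with respect to the set `E`. -/
structure PowerPair {K₀ K : Type} [Field K₀] [Field K] [Algebra K₀ K] {V : Type} [AddCommGroup V]
    [Module K₀ V] [FiniteDimensional K₀ V] {Γ : Type} [Group Γ] {d : ℕ}
    {ρ : Representation K₀ Γ V} (p₁ p₂ : Place K₀ d ρ) (ε : K₀) (R : K₀[X]) (E : Set K)
    (a : K) : Prop where
  odd₁ : Odd (p₁.P.eval 1)
  odd₂ : Odd (p₂.P.eval 1)
  parity : Parity (Module.finrank K₀ V) p₁.P p₂.P
  sign : ε * ε = 1
  charpoly : (ρ p₁.φ).charpoly = (X - C ε) * R
  irreducible : Irreducible R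
  degree : 1 < R.natDegree
  ratio : NoRatio K ((X - C ε) * R)
  isolated : IsolatedRoot ((X - C ε) * R) E a

section
variable {K A : Type} [Field K] [Ring A] [Algebra K A] {Γ : Type} [Group Γ]

/-- The space `P`, with its form and with the action of `Γ` twisted by `χ ^ (- d)`, comes from a representation `F` of
`Γ` over `ℚ_2`, the anti-invariant part of the cohomology of a double covering of the projective space of dimension
`2 d`, with two places and data with the property `PowerPair` with respect to `E φ`, where `φ` is the Frobenius element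
at the first place. -/
def PowerStr (χ : Γ →* Kˣ) (tr : A →ₗ[K] K) (act : Γ →* (A ≃ₐ[K] A)) (P : Submodule K A)
    (d : ℕ) (E : Γ → Set K) : Prop :=
  ∃ (_ : Algebra ℚ_[2] K) (F : FormRep ℚ_[2] Γ) (j : F.V →+ A) (p₁ p₂ : Place ℚ_[2] d F.rep)
    (ε : ℚ_[2]) (R : ℚ_[2][X]) (a : K),
    IsRational χ tr d P act F.form F.rep j ∧ PowerPair p₁ p₂ ε R (E p₁.φ) a

end

open Pool.Agent.H914 Pool.Agent.H914.VarClass Pool.Agent.H914.VarClass.Obj
  Pool.Agent.H914.WeilCohomology Pool.Agent.H281R3.HT

variable {k : Type u} [Field k] {𝒱 : VarClass k} {ops : CycleOps 𝒱}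
  {W : WeilCohomology.{u, 0} ops} {Γ : Type} [Group Γ]

/-- The variety `S`, of some dimension `2 d`, has the properties `CoverAct` and `PowerStr`. -/
def PowerCover (χ : Γ →* W.Kˣ) (S : PVar W Γ) (E : Γ → Set W.K) : Prop :=
  ∃ d : ℕ, CoverAct χ (W.gr S.X) S.X.dim (W.tr S.X) (algClasses W S.X) S.act S.P d ∧
    PowerStr χ (W.tr S.X) S.act S.P d E

end Pool.Agent.Run7.h735.TP
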