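import Pool.Agent.Y134.Two.Fin
import Pool.Agent.Y134.TF.Alg

/-!
# The factor of the characteristic polynomial at a place
-/

set_option autoImplicit false

namespace Pool.Agent.Run7.h735.TP

open Polynomial Module Pool.Agent.Y134.Two Pool.Agent.Y134.TF

section
variable {K : Type} [Field K] [CharZero K] {V : Type} [AddCommGroup V] [Module K V]
  [FiniteDimensional K V]

omit [CharZero K] in
lemma scale_charpoly (f : Module.End K V) (Q t : K) :
    (Q • f).charpoly.eval (Q * t) = Q ^ finrank K V * f.charpoly.eval t := by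
  rw [LinearMap.eval_charpoly, LinearMap.eval_charpoly, ← LinearMap.det_smul]
  congr 1
  refine LinearMap.ext fun x => ?_
  rw [LinearMap.sub_apply, Module.algebraMap_end_apply, LinearMap.smul_apply,
    LinearMap.smul_apply, LinearMap.sub_apply, Module.algebraMap_end_apply, smul_sub, smul_smul]

lemma ne_zero_of_odd {m : ℤ} (h : Odd m) : m ≠ 0 := by
  rintro rfl
  exact absurd h (by decide)

variable {b : V →ₗ[K] V →ₗ[K] K}

/-- An isometry of an odd dimensional space has an eigenvalue `1` or `-1`. -/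
lemma exists_sign (hb : ∀ x, (∀ y, b x y = 0) → x = 0) (hs : ∀ x y, b x y = b y x)
    {f : Module.End K V} (hf : ∀ x y, b (f x) (f y) = b x y) (hodd : Odd (finrank K V)) :
    ∃ (ε : K) (R : K[X]), ε * ε = 1 ∧ f.charpoly = (X - C ε) * R := by
  obtain ⟨g, h5, h6, h7⟩ := exists_inv hb hf
  obtain ⟨-, hfacts⟩ := skew_facts hb hs h5 h6 h7
  have hex : ∃ ε : K, ε * ε = 1 ∧ f.charpoly.IsRoot ε := by
    by_cases h1 : LinearMap.det (f - 1) = 0
    · refine ⟨1, mul_one 1, ?_⟩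
      rw [IsRoot.def, LinearMap.eval_charpoly, map_one, one_sub_eq, LinearMap.det_smul, h1,
        mul_zero]
    · by_cases h2 : LinearMap.det (f + 1) = 0
      · refine ⟨-1, by ring, ?_⟩
        rw [IsRoot.def, LinearMap.eval_charpoly]
        have h3 : algebraMap K (Module.End K V) (-1) - f = (-1 : K) • (f + 1) := by
          refine LinearMap.ext fun x => ?_
          rw [LinearMap.sub_apply, Module.algebraMap_end_apply, LinearMap.smul_apply,
            LinearMap.add_apply, Module.End.one_apply, neg_smul, neg_smul, one_smul, one_smul]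
          abel
        rw [h3, LinearMap.det_smul, h2, mul_zero]
      · exact absurd (hfacts h1 h2).1 (Nat.not_even_iff_odd.2 hodd)
  obtain ⟨ε, hε, hr⟩ := hex
  obtain ⟨R, hR⟩ := dvd_iff_isRoot.2 hr
  exact ⟨ε, R, hε, hR⟩

variable {G : Type} [Group G] {d : ℕ} {ρ : Representation K G V}

/-- The values of the factor `R` at `1` and `-1`, for one place. -/
theorem eps_facts (p : Place K d ρ) (hP : Odd (p.P.eval 1))
    (hb : ∀ x, (∀ y, b x y = 0) → x = 0)
    (hs : ∀ x y, b x y = b y x) (hG : ∀ g x y, b (ρ g x) (ρ g y) = b x y)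
    {ε : K} {R : K[X]} (hε : ε * ε = 1) (hcp : (ρ p.φ).charpoly = (X - C ε) * R) :
    Odd (finrank K V) ∧ R.eval 1 ≠ 0 ∧ R.eval (-1) ≠ 0 ∧ ∃ (δ : ℤ) (c : K), c ≠ 0 ∧
      (-1) ^ (finrank K V / 2) * δ ≡ 1 + 4 * arf (finrank K V / 2) p.P [ZMOD 8] ∧
      (δ : K) = c ^ 2 * (R.eval 1 * R.eval (-1)) := by
  obtain ⟨A, hmon, hdeg, hA, hA2⟩ := exists_int (E := AlgebraicClosure K) p.odd p.F (ρ p.φ) p.cover
    p.factor p.branch
  obtain ⟨Q, hQdef⟩ : ∃ Q : ℕ, Q = (Fintype.card p.κ) ^ d := ⟨_, rfl⟩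
  have hcast : (Q : K) = (Fintype.card p.κ : K) ^ d := by rw [hQdef]; push_cast; rfl
  rw [← hcast] at hA
  have hQ : Odd Q := by rw [hQdef]; exact p.odd.pow
  have hQ0 : (Q : K) ≠ 0 := by
    intro h
    have : Q = 0 := by exact_mod_cast h
    rw [this] at hQ
    exact absurd hQ (by decide)
  obtain ⟨e, he, hεe⟩ := eq_sign hε
  set n := finrank K V with hn
  have hinj : Function.Injective (Int.castRingHom K) := (Int.castRingHom K).injective_int
  have hval : ∀ t : K, (A.map (Int.castRingHom K)).eval (Q * t) =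
      (Q : K) ^ n * ((t - ε) * R.eval t) := by
    intro t
    rw [hA, scale_charpoly, hcp, eval_mul, eval_sub, eval_X, eval_C]
  have hroot : A.IsRoot (e * Q) := by
    have h1 := hval ε
    rw [sub_self, zero_mul, mul_zero, hεe] at h1
    have h2 := eval_intCast_map (Int.castRingHom K) A (e * Q)
    have h3 : ((e * Q : ℤ) : K) = Q * (e : K) := by push_cast; ring
    rw [h3, h1] at h2
    exact hinj (h2.symm.trans (map_zero _).symm)
  obtain ⟨R₀, hR₀⟩ := dvd_iff_isRoot.2 hroot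
  have hRdeg : R₀.natDegree + 1 = n := by
    have h1 : A.natDegree = (X - C (e * Q : ℤ)).natDegree + R₀.natDegree := by
      rw [hR₀]
      refine natDegree_mul (X_sub_C_ne_zero _) ?_
      rintro rfl
      rw [mul_zero] at hR₀
      exact hmon.ne_zero hR₀
    rw [natDegree_X_sub_C, hdeg] at h1
    omega
  -- the values of the factor
  have hR₀K : ∀ t : K, (Q : K) * (R₀.map (Int.castRingHom K)).eval (Q * t) =
      (Q : K) ^ n * R.eval t := by
    have h1 : (X - C ε) * (C (Q : K) * (R₀.map (Int.castRingHom K)).comp (C (Q : K) * X)) =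
        (X - C ε) * (C ((Q : K) ^ n) * R) := by
      apply Polynomial.funext
      intro t
      have h2 := hval t
      rw [hR₀, Polynomial.map_mul, Polynomial.map_sub, map_X, map_C, eval_mul, eval_sub, eval_X,
        eval_C] at h2
      have h3 : (Int.castRingHom K) (e * Q) = Q * ε := by
        rw [hεe, eq_intCast]
        push_cast
        ring
      rw [h3] at h2
      simp only [eval_mul, eval_sub, eval_X, eval_C, eval_comp]
      linear_combination h2
    have h2 := mul_left_cancel₀ (X_sub_C_ne_zero ε) h1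
    intro t
    have h3 := congrArg (eval t) h2
    simp only [eval_mul, eval_C, eval_comp, eval_X] at h3
    exact h3
  -- parity of the values
  have hεQ : ((e * Q : ℤ) : ZMod 2) = 1 := by
    rw [Int.cast_mul, odd_cast hQ, mul_one]
    rcases he with rfl | rfl
    · simp
    · decide
  have hR2 : (R₀.reflect (n - 1)).map (Int.castRingHom (ZMod 2)) =
      p.P.map (Int.castRingHom (ZMod 2)) := by
    have hn1 : 1 + (n - 1) = n := by omega
    have h1 : A.reflect n = (1 - C (e * Q : ℤ) * X) * R₀.reflect (n - 1) := by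
      conv_lhs => rw [hR₀, ← hn1]
      rw [reflect_mul (X - C (e * Q : ℤ)) R₀
        (natDegree_X_sub_C_le _) (by omega)]
      congr 1
      rw [reflect_sub, reflect_C, reflect_one_X, pow_one]
    rw [h1, Polynomial.map_mul, Polynomial.map_sub, Polynomial.map_mul, Polynomial.map_one, map_X,
      map_C, eq_intCast, hεQ, C_1, one_mul] at hA2
    have h2 : (1 - X : (ZMod 2)[X]) ≠ 0 := by
      rw [← neg_ne_zero, neg_sub, ← C_1]
      exact X_sub_C_ne_zero 1
    exact mul_left_cancel₀ h2 hA2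
  have hR1 : Odd (R₀.eval 1) := by
    have h1 := congrArg (eval 1) hR2
    have h2 : ∀ S : ℤ[X], (S.map (Int.castRingHom (ZMod 2))).eval 1 = ((S.eval 1 : ℤ) : ZMod 2) := by
      intro S
      have := eval_intCast_map (Int.castRingHom (ZMod 2)) S 1
      rw [Int.cast_one] at this
      exact this
    rw [h2, h2, eval_one_reflect R₀ (by omega)] at h1
    have h3 := (ZMod.intCast_eq_intCast_iff_dvd_sub _ _ 2).1 h1
    obtain ⟨w, hw⟩ := h3
    obtain ⟨u, hu⟩ := hP
    rw [hu] at hw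
    exact ⟨u - w, by push_cast at hw; linarith⟩
  have hQz : Odd (Q : ℤ) := by exact_mod_cast hQ
  have hoddx : ∀ x : ℤ, x ≡ 1 [ZMOD 2] → Odd (R₀.eval x) := by
    intro x hx
    have h2 := eval_modEq R₀ hx
    rw [Int.modEq_iff_dvd] at h2
    obtain ⟨w, hw⟩ := h2
    obtain ⟨u, hu⟩ := hR1
    exact ⟨u - w, by linarith⟩
  have hoddQ : Odd (R₀.eval (Q : ℤ)) := by
    apply hoddx
    obtain ⟨w, hw⟩ := hQz
    rw [hw, Int.modEq_iff_dvd]
    exact ⟨-w, by ring⟩
  have hoddQ' : Odd (R₀.eval (-(Q : ℤ))) := by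
    apply hoddx
    obtain ⟨w, hw⟩ := hQz
    rw [hw, Int.modEq_iff_dvd]
    exact ⟨w + 1, by ring⟩
  have hev1 : ((R₀.eval (Q : ℤ) : ℤ) : K) = (R₀.map (Int.castRingHom K)).eval ((Q : K) * 1) := by
    have := eval_intCast_map (Int.castRingHom K) R₀ (Q : ℤ)
    simp only [Int.cast_natCast] at this
    rw [mul_one, ← eq_intCast (Int.castRingHom K) (R₀.eval (Q : ℤ)), ← this]
  have hev2 : ((R₀.eval (-(Q : ℤ)) : ℤ) : K) =
      (R₀.map (Int.castRingHom K)).eval ((Q : K) * (-1)) := by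
    have := eval_intCast_map (Int.castRingHom K) R₀ (-(Q : ℤ))
    simp only [Int.cast_id] at this
    have h3 : (Q : K) * (-1) = ((-(Q : ℤ) : ℤ) : K) := by push_cast; ring
    rw [h3, ← eq_intCast (Int.castRingHom K) (R₀.eval (-(Q : ℤ))), ← this]
  have hz1 : R.eval 1 ≠ 0 := by
    intro h0
    have h1 := hR₀K 1
    rw [h0, mul_zero, ← hev1] at h1
    rcases mul_eq_zero.1 h1 with h2 | h2
    · exact hQ0 h2
    · exact ne_zero_of_odd hoddQ (by exact_mod_cast h2)
  have hz2 : R.eval (-1) ≠ 0 := by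
    intro h0
    have h1 := hR₀K (-1)
    rw [h0, mul_zero, ← hev2] at h1
    rcases mul_eq_zero.1 h1 with h2 | h2
    · exact hQ0 h2
    · exact ne_zero_of_odd hoddQ' (by exact_mod_cast h2)
  have hzε : R.eval ε ≠ 0 := by
    rcases mul_self_eq_one_iff.1 hε with h | h
    · rw [h]; exact hz1
    · rw [h]; exact hz2
  obtain ⟨v, hv0, hv, hvv⟩ := exists_vector hb (hG p.φ) hε hcp hzε
  have hfW : perp b v ≤ (perp b v).comap (ρ p.φ) := fun x hx =>
    perp_le (hG p.φ) hvv hv x hx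
  obtain ⟨R₁, e₁, he₁, hR₁, hev, hmod, -⟩ := place_facts hQ hmon hdeg hA hA2 hP hb hs (hG p.φ)
    hvv hv hfW
  have hfr := finrank_perp hb hv0
  obtain ⟨r, hr⟩ := hev
  have hdiv : finrank K (perp b v) / 2 = n / 2 := by omega
  rw [hdiv] at hmod
  have hee : e₁ = e := by
    by_contra hne
    have h1 : e₁ = -e := by omega
    have h2 : A.eval (e₁ * Q) = 0 := by
      rw [hR₁, eval_mul, eval_sub, eval_X, eval_C, sub_self, zero_mul]
    rw [hR₀, eval_mul, eval_sub, eval_X, eval_C, h1] at h2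
    rcases mul_eq_zero.1 h2 with h3 | h3
    · have h4 : e * (Q : ℤ) = 0 := by linarith
      rcases mul_eq_zero.1 h4 with h5 | h5
      · rcases he with h | h <;> rw [h] at h5 <;> norm_num at h5
      · exact ne_zero_of_odd hQz h5
    · have h4 : Odd (R₀.eval (-e * (Q : ℤ))) := by
        rcases he with h | h
        · rw [h, neg_mul, one_mul]; exact hoddQ'
        · rw [h, neg_neg, one_mul]; exact hoddQ
      exact ne_zero_of_odd h4 h3
  have hRR : R₁ = R₀ := by
    rw [hee, hR₀] at hR₁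
    exact (mul_left_cancel₀ (X_sub_C_ne_zero _) hR₁).symm
  rw [hRR] at hmod
  refine ⟨⟨r, by omega⟩, hz1, hz2, _, (Q : K) ^ n / Q, div_ne_zero (pow_ne_zero _ hQ0) hQ0, hmod, ?_⟩
  rw [Int.cast_mul, hev1, hev2]
  have h1 := hR₀K 1
  have h2 := hR₀K (-1)
  have h1' : (R₀.map (Int.castRingHom K)).eval ((Q : K) * 1) = (Q : K) ^ n / Q * R.eval 1 := by
    field_simp
    rw [← h1]
    ring_nf
  have h2' : (R₀.map (Int.castRingHom K)).eval ((Q : K) * (-1)) =
      (Q : K) ^ n / Q * R.eval (-1) := by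
    field_simp
    rw [← h2]
    ring_nf
  rw [h1', h2']
  ring

end

section
variable {V : Type} [AddCommGroup V] [Module ℚ_[2] V] [FiniteDimensional ℚ_[2] V]
  {G : Type} [Group G] {d : ℕ} {ρ : Representation ℚ_[2] G V} {b : V →ₗ[ℚ_[2]] V →ₗ[ℚ_[2]] ℚ_[2]}

/-- The second place. -/
theorem second_place (p₁ p₂ : Place ℚ_[2] d ρ) (hP₁ : Odd (p₁.P.eval 1)) (hP₂ : Odd (p₂.P.eval 1))
    (hodd : Odd (arf (finrank ℚ_[2] V / 2) p₁.P + arf (finrank ℚ_[2] V / 2) p₂.P))
    (hb : ∀ x, (∀ y, b x y = 0) → x = 0)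
    (hs : ∀ x y, b x y = b y x) (hG : ∀ g x y, b (ρ g x) (ρ g y) = b x y)
    {ε₁ : ℚ_[2]} {R₁ : ℚ_[2][X]} (hε : ε₁ * ε₁ = 1) (hcp : (ρ p₁.φ).charpoly = (X - C ε₁) * R₁) :
    ∃ (ε₂ : ℚ_[2]) (R₂ : ℚ_[2][X]), (ρ p₂.φ).charpoly = (X - C ε₂) * R₂ ∧
      R₂.eval 1 ≠ 0 ∧ R₂.eval (-1) ≠ 0 ∧
      ¬ IsSquare ((R₁.eval 1 * R₁.eval (-1)) * (R₂.eval 1 * R₂.eval (-1))) := by
  obtain ⟨hn, -, -, δ₁, c₁, hc₁, hm₁, hd₁⟩ := eps_facts p₁ hP₁ hb hs hG hε hcp
  obtain ⟨ε₂, R₂, hε₂, hcp₂⟩ := exists_sign hb hs (hG p₂.φ) hn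
  obtain ⟨-, h1, h2, δ₂, c₂, hc₂, hm₂, hd₂⟩ := eps_facts p₂ hP₂ hb hs hG hε₂ hcp₂
  refine ⟨ε₂, R₂, hcp₂, h1, h2, fun hsq => ?_⟩
  have hδ : ((δ₁ * δ₂ : ℤ) : ℚ_[2]) = (c₁ * c₂) ^ 2 *
      ((R₁.eval 1 * R₁.eval (-1)) * (R₂.eval 1 * R₂.eval (-1))) := by
    push_cast
    rw [hd₁, hd₂]
    ring
  have hsq' : IsSquare ((δ₁ * δ₂ : ℤ) : ℚ_[2]) := by
    obtain ⟨t, ht⟩ := hsq
    refine ⟨c₁ * c₂ * t, ?_⟩
    rw [hδ, ht]
    ring
  refine not_isSquare ?_ hsq'
  have h7 : ((-1 : ℤ) ^ (finrank ℚ_[2] V / 2)) * (-1) ^ (finrank ℚ_[2] V / 2) = 1 := by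
    rw [← mul_pow, neg_one_mul, neg_neg, one_pow]
  have h8 := hm₁.mul hm₂
  have h9 : (-1) ^ (finrank ℚ_[2] V / 2) * δ₁ * ((-1) ^ (finrank ℚ_[2] V / 2) * δ₂) = δ₁ * δ₂ := by
    linear_combination (δ₁ * δ₂) * h7
  rw [h9] at h8
  obtain ⟨w, hw⟩ := hodd
  have h10 : (1 + 4 * arf (finrank ℚ_[2] V / 2) p₁.P) * (1 + 4 * arf (finrank ℚ_[2] V / 2) p₂.P) ≡
      5 [ZMOD 8] := by
    rw [Int.modEq_iff_dvd]
    refine ⟨-(w + 2 * arf (finrank ℚ_[2] V / 2) p₁.P * arf (finrank ℚ_[2] V / 2) p₂.P), ?_⟩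
    linear_combination (-4) * hw
  exact h8.trans h10

end

end Pool.Agent.Run7.h735.TP
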