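import Pool.Agent.Run7.h735.TP.DefsPow
import Pool.Agent.Run7.h735.TP.Main
import Pool.Agent.Run7.h735.TP.Pow

/-!
# Double coverings and two places: the Tate conjecture
-/

set_option autoImplicit false

universe u

namespace Pool.Agent.Run7.h735.TP

open Polynomial Module Pool.Agent.Y134.Two Pool.Agent.Y134.TF Pool.Agent.Y130
  Pool.Agent.TH125.Gal Pool.Agent.TH118.SG
open Pool.Agent.H914 Pool.Agent.H914.VarClass Pool.Agent.H914.VarClass.Obj
  Pool.Agent.H914.WeilCohomology Pool.Agent.H281R3.HT Pool.Agent.W552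

variable {k : Type u} [Field k] {𝒱 : VarClass k} {ops : CycleOps 𝒱}
  {W : WeilCohomology.{u, 0} ops} {Γ : Type} [Group Γ] {χ : Γ →* W.Kˣ} {S : PVar W Γ}

/-- The powers: the data at two places for `ℓ = 2`. -/
theorem PowerCover.two {E : Γ → Set W.K} (hs : PowerCover χ S E) :
    S.Two χ E := by
  obtain ⟨d, h, hs⟩ := hs
  have h : Cover χ S d := h
  obtain ⟨_, F, j, p₁, p₂, ε, R, a, hj, hP₁, hP₂, hodd, hε, hcp, hirr,
    hdeg, hrat, ha⟩ := hs
  have hF := h.formOn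
  have hd : S.X.dim = 2 * d := h.dim
  obtain ⟨ε₂, R₂, hcp₂, h1, h2, hsq⟩ := second_place p₁ p₂ hP₁ hP₂ hodd
    (b := F.form) (fun x hx => hj.form_zero hF hx) (hj.form_symm hF)
    (hj.form_inv hF) hε hcp
  have he : Even S.X.dim := by rw [hd]; exact even_two_mul d
  have h3 : S.X.dim / 2 = d := by rw [hd]; omega
  refine ⟨h.galois, he, h.middle, h.sum, ℚ_[2], inferInstance, inferInstance,
    inferInstance, F, j, by rw [h3]; exact hj, p₁.φ, p₂.φ, ε, R, ε₂, R₂, a, ?_, ha⟩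
  exact ⟨hε, hcp, hirr, hdeg, hrat, hcp₂, h1, h2, hsq⟩

end Pool.Agent.Run7.h735.TP
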